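import Pool.Agent.H547_tb.Final

/-!
# The Tate conjecture for Tate classes of bounded codimension on varieties of Fermat type

Let `p` be a prime number and `m` a squarefree number prime to `p`. We consider, over an algebraic
closure of the field with `p` elements,

* the products `X` of Fermat varieties `x_0 ^ d + ... + x_(n+1) ^ d = 0`, of degrees `d` dividing `m`:
  any finite number of factors, of any dimensions. A Tate class of codimension `i` in the usual
  eigenbasis has a number of residues, at most `6 i` if the dimensions of the factors are positive
  (Theorem 0), and `n + 2` (or none) for one Fermat variety of dimension `n`;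
* all products of the curves `y ^ q - y = x ^ d` with `d` dividing `m` and `q` a power of `p`, and all
  abelian varieties `A` whose simple factors occur in the Jacobians of these curves and of the Fermat
  curves. Here a Tate class of codimension `i` on `A` has `2 i` residues.

We prove the Tate conjecture for all Tate classes with at most `L` residues for many `m` and `p`. For
`L = 6 i` this is the Tate conjecture in codimension `i` for all `X` of positive dimensional factors,
and for `L = 2 i` it is the Tate conjecture in codimension `i` for all `A`.

*Theorem 1.* Assume that all odd prime divisors of `m` are larger than `2 L + 1` (larger than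
`4 L + 1` if `m` is even), and that for each odd divisor `n > 1` of `m` one of the following conditions
holds.

* A power of `p` is `-1` modulo `n` (the supersingular case).
* There is an odd primitive Dirichlet character modulo `n`, of order a power of two, whose value at
  `p` is `1`.
* The order `f` of `p` modulo `n` is odd, `n` is a product of an even number `w` of prime numbers
  which are `3` modulo `4`, and `L * 2 ^ w * f < φ(n)` (`2 * L` in place of `L` if `m` is even).

Then all Tate classes above with at most `L` residues are algebraic: they are spanned by products of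
hyperplane classes and of classes obtained from divisors on Fermat surfaces and on products of two
curves, standard cycles, and the inductive structure.

*Theorem 2.* If the order of `p` modulo `m` is odd, for instance if `p` is `1` modulo `m`, then it
suffices to assume that the odd prime divisors of `m` are larger than `2 L + 1` (`4 L + 1` if `m` is
even) and that `L * 2 ^ w * f < φ(n)` (`2 * L` in place of `L` if `m` is even) for each `n` dividing
`m` which is the product of an even number `w > 0` of prime numbers which are `3` modulo `4`. If at
most one prime divisor of `m` is `3` modulo `4`, then there is no such `n`.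

The conditions at `n` hold for all prime numbers `n`, and for all products of two prime numbers `q`
and `r` if `p` has odd order modulo `q` and `r`, except possibly if `q` and `r` are both `3` modulo `4`,
when they hold if `L * f < ((q - 1) / 2) * ((r - 1) / 2)`. The order `f` is at most the least common
multiple of the odd parts of `q - 1` and `r - 1`.

*Cohomology.* The cohomology of the Fermat variety of degree `d` and dimension `n` has the basis
consisting of the powers of the hyperplane class, with exponents `0, ..., n`, and of one vector for
each tuple of `n + 2` nonzero residues modulo `d` with sum zero (Weil, Katz, Shioda); we write these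
residues as multiples of `m / d` modulo `m`, that is as residues `a` modulo `m` with `d a = 0`. The
cohomology of `X` has the basis of the products of these elements (`Element`, `IsAdmissible`). By
Stickelberger's theorem such a product is a Tate class (over a finite field) if and only if all the
residues which occur in it form a Tate character (`IsTate`; here `residues`), and the Tate classes of
codimension `i` are the combinations of these basis elements. In the same way the Tate classes for the
curves `y ^ q - y = x ^ d` correspond to the multisets satisfying `IsGaussTate`: the Frobenius acts on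
their first cohomology by Gauss sums.

*Algebraic classes.* The basis elements for which the residues become, after raising the degree to a
multiple prime to `p`, a member of the closure (`Generated`) of the characters of Fermat surfaces and
of the standard characters, are algebraic: by Tate (products of curves) and Shioda and Katsura for
surfaces, by Aoki and Shioda for the standard characters, and by the inductive structure of Fermat
varieties of Shioda and Katsura for the closure (`IsKnown`). For the curves `y ^ q - y = x ^ d` also the
pairs satisfying `IsGaussTate` are algebraic, by Tate's theorem on homomorphisms of abelian varieties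
(`IsGaussKnown`).

*Proof.* By the parity theorem (`Pool.Agent.H916Y.parity_main`, from
`Pool.Agent.Results.MP_0d42ed_ag.FermatParity`) it suffices to show that the number of the residues
of order `n` in a Tate class with at most `L` residues is even, for each odd `n` dividing `m` such that
`-1` is not a power of `p` modulo `n`. The distribution relations give an element of the group ring of
the units modulo `n` whose degree is this number, and the sum of the absolute values of whose
coefficients is at most `L` (`2 L` if `m` is even). Its values at the odd characters which are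
primitive modulo `n` and trivial at `p` are algebraic integers, all conjugates of which have absolute
value less than one, since the prime divisors of `m` are large; so they are zero. If one of these
characters has two-power order, then the degree is even, as we see modulo a prime ideal over two. Under
the third condition we twist by the characters of odd order: they show that an element of odd degree
which is killed in this way has at least as many terms as the index of the group generated by `p` in
the group of the elements of odd order.
-/

set_option autoImplicit false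

namespace Pool.Agent.Results.MP_021685_ag.BoundedCodimension

open Finset Pool.Agent.H916T

section defs

variable {ι : Type} [Fintype ι]

/-- A product of elements of the bases of the cohomology of the Fermat varieties of dimensions `n_j`,
for `j` in a finite set: for each `j` a power of the hyperplane class, with an exponent between `0`
and `n_j`, or a tuple of `n_j + 2` residues modulo `m`. -/
abbrev Element (m : ℕ) (n : ι → ℕ) : Type := ∀ j, Fin (n j + 1) ⊕ (Fin (n j + 2) → ZMod m)

/-- The tuples in `b` are characters of the Fermat varieties of degrees `d_j`: the residues are not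
zero, they are killed by `d_j`, and their sum is zero. -/
def IsAdmissible (m : ℕ) (d n : ι → ℕ) (b : Element m n) : Prop :=
  ∀ j a, b j = Sum.inr a → (∀ l, a l ≠ 0 ∧ (d j : ZMod m) * a l = 0) ∧ ∑ l, a l = 0

/-- The degree in cohomology: twice the exponent of the hyperplane class, or the dimension. -/
def degree {m : ℕ} {n : ι → ℕ} (b : Element m n) : ℕ :=
  ∑ j, Sum.elim (fun l : Fin (n j + 1) => 2 * (l : ℕ)) (fun _ => n j) (b j)

/-- All the residues in `b`. -/
def residues {m : ℕ} {n : ι → ℕ} (b : Element m n) : Multiset (ZMod m) :=
  ∑ j, Sum.elim (fun _ => 0) (fun a => (univ : Finset (Fin (n j + 2))).val.map a) (b j)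

/-- The basis of the space of the Tate classes of codimension `i` (over all finite extensions of the
field with `p` elements) on the product of the Fermat varieties of degrees `d_j` and dimensions
`n_j`. -/
def tateBasis (p m : ℕ) (d n : ι → ℕ) (i : ℕ) : Set (Element m n) :=
  {b | IsAdmissible m d n b ∧ degree b = 2 * i ∧ IsTate p m (residues b)}

end defs

/-- The character `s` (a multiset of residues modulo `m`) is empty, or it becomes, after raising the
degree to a multiple prime to `p`, a member of the closure of the characters of surfaces and of the
standard characters. -/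
def IsKnown (p m : ℕ) (s : Multiset (ZMod m)) : Prop :=
  s = 0 ∨ ∃ N : ℕ, 0 < N ∧ p.Coprime N ∧
    Generated (N * m)
      (fun t => SurfaceTate p (N * m) t ∨ ∃ q : ℕ, q.Prime ∧ q ∣ N * m ∧ Standard q (N * m) t)
      (s.map fun a => ((N * a.val : ℕ) : ZMod (N * m)))

/-- A multiset `s` of an even number of nonzero residues modulo `m`, such that for every unit `t`
modulo `m` the representatives in `{1, ..., m - 1}` of the residues `p ^ j * t * a`, where `a ∈ s` and
`0 ≤ j < f`, `f` being the order of `p` modulo `m`, add up to `f * m * |s| / 2`: the product of the
corresponding Gauss sums is a root of unity times a power of `p`. -/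
def IsGaussTate (p m : ℕ) (s : Multiset (ZMod m)) : Prop :=
  (0 : ZMod m) ∉ s ∧ Even (Multiset.card s) ∧
    ∀ t : (ZMod m)ˣ,
      2 * ∑ j ∈ Finset.range (orderOf (p : ZMod m)),
          (s.map fun a => ((p : ZMod m) ^ j * ((t : ZMod m) * a)).val).sum =
        orderOf (p : ZMod m) * (m * Multiset.card s)

/-- The multiset `s` of residues modulo `m` is empty, or it becomes, after raising the degree to a
multiple prime to `p`, a member of the closure of the two element sets satisfying `IsGaussTate`, the
characters of surfaces and the standard characters. -/
def IsGaussKnown (p m : ℕ) (s : Multiset (ZMod m)) : Prop :=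
  s = 0 ∨ ∃ N : ℕ, 0 < N ∧ p.Coprime N ∧
    Generated (N * m)
      (fun t => (IsGaussTate p (N * m) t ∧ Multiset.card t = 2) ∨ SurfaceTate p (N * m) t ∨
        ∃ q : ℕ, q.Prime ∧ q ∣ N * m ∧ Standard q (N * m) t)
      (s.map fun a => ((N * a.val : ℕ) : ZMod (N * m)))

/-- The Tate classes with at most `L` residues are known to be algebraic, in degrees dividing `m` and
in characteristic `p`: for all the abelian varieties, and for all the products of Fermat varieties. -/
def TateUpTo (p m L : ℕ) : Prop :=
  (∀ s : Multiset (ZMod m), IsGaussTate p m s → Multiset.card s ≤ L → IsGaussKnown p m s) ∧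
  ∀ (i : ℕ) (ι : Type) [Fintype ι] (d n : ι → ℕ), (∀ j, d j ∣ m) →
    ∀ b ∈ tateBasis p m d n i, Multiset.card (residues b) ≤ L → IsKnown p m (residues b)

/-- `L`, or `2 * L` if `m` is even. -/
def effective (m L : ℕ) : ℕ := if 2 ∣ m then 2 * L else L

/-- The conditions at the divisor `n` of `m`. -/
def GoodLevel (p n B : ℕ) : Prop :=
  (∃ j : ℕ, (p : ZMod n) ^ j = -1) ∨
  (∃ χ : DirichletCharacter ℂ n, χ.IsPrimitive ∧ χ.Odd ∧ χ (p : ZMod n) = 1 ∧
    ∃ k : ℕ, χ ^ (2 ^ k) = 1) ∨
  (Odd (orderOf (p : ZMod n)) ∧ (∀ q ∈ n.primeFactors, q % 4 = 3) ∧ Even n.primeFactors.card ∧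
    B * 2 ^ n.primeFactors.card * orderOf (p : ZMod n) < n.totient)

section proof

variable {ι : Type} [Fintype ι] {m : ℕ} {n : ι → ℕ}

lemma card_residues (b : Element m n) : Multiset.card (residues b) =
    ∑ j, Sum.elim (fun _ => 0) (fun _ => n j + 2) (b j) := by
  unfold residues
  rw [Multiset.card_sum]
  refine sum_congr rfl fun j _ => ?_
  rcases b j with l | a
  · simp
  · simp

lemma card_le (hn : ∀ j, 1 ≤ n j) {i : ℕ} {b : Element m n} (h : degree b = 2 * i) :
    Multiset.card (residues b) ≤ 6 * i := by
  have h1 : ∑ j, Sum.elim (fun _ => 0) (fun _ => n j + 2) (b j) ≤ 3 * degree b := by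
    unfold degree
    rw [mul_sum]
    refine sum_le_sum fun j _ => ?_
    have := hn j
    rcases b j with l | a
    · simp
    · simp only [Sum.elim_inr]
      omega
  rw [card_residues]
  omega

lemma rel0_iff {p m : ℕ} [NeZero m] (hpm : p.Coprime m) {s : Multiset (ZMod m)}
    (h0 : (0 : ZMod m) ∉ s) :
    H916Z.Rel0 p s ↔ ∀ t : (ZMod m)ˣ,
      2 * ∑ j ∈ Finset.range (orderOf (p : ZMod m)),
          (s.map fun a => ((p : ZMod m) ^ j * ((t : ZMod m) * a)).val).sum =
        orderOf (p : ZMod m) * (m * Multiset.card s) := by
  unfold H916Z.Rel0
  refine forall_congr' fun t => ?_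
  rw [val_sum_eq hpm s h0 t, sub_eq_zero]
  exact Nat.cast_inj

lemma base_of {p M : ℕ} [NeZero M] (hpM : p.Coprime M) {t : Multiset (ZMod M)}
    (h : H547_as.GBase p M t) :
    (IsGaussTate p M t ∧ Multiset.card t = 2) ∨ SurfaceTate p M t ∨
      ∃ q : ℕ, q.Prime ∧ q ∣ M ∧ Standard q M t := by
  rcases h with ⟨h1, h2, h3⟩ | h
  · exact Or.inl ⟨⟨h1, by rw [h2]; exact even_two, (rel0_iff hpM h1).mp h3⟩, h2⟩
  · exact Or.inr h

lemma effective_eq (m L : ℕ) : effective m L = H547_tb.cc m * L := by
  unfold effective H547_tb.cc
  split_ifs <;> simp

open scoped Classical in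
/-- The Tate conjecture from the parity condition. -/
lemma tateUpTo_of_parity {p m L : ℕ} (hp : p.Prime) (hm : 0 < m) (hpm : p.Coprime m)
    (H : ∀ s : Multiset (ZMod m), (0 : ZMod m) ∉ s → H916Z.Rel0 p s → Even (Multiset.card s) →
      Multiset.card s ≤ L →
      ∀ a, Even (s.countP (fun b => Relation.EqvGen (H916Z.Link p) a b))) : TateUpTo p m L := by
  have hz : NeZero m := ⟨hm.ne'⟩
  constructor
  · intro s hs hc
    by_cases hne : s = 0
    · exact Or.inl hne
    right
    have hr := (rel0_iff hpm hs.1).mpr hs.2.2
    obtain ⟨N, hN, hpN, h1⟩ := H547_as.gauss_parity hp hm hpm hs.1 hs.2.1 hr hne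
      (H s hs.1 hr hs.2.1 hc)
    refine ⟨N, hN, hpN, ?_⟩
    have hzN : NeZero (N * m) := ⟨(Nat.mul_pos hN hm).ne'⟩
    exact H916Z.generated_mono (fun t ht => base_of (Nat.Coprime.mul_right hpN hpm) ht)
      (h1 (N * m) rfl)
  · intro i κ _ d k _ b hb hc
    by_cases hne : residues b = 0
    · exact Or.inl hne
    right
    have hs := hb.2.2
    have hr : H916Z.Rel0 p (residues b) := (rel0_iff hpm hs.1).mpr hs.2.2.2
    obtain ⟨N, hN, hpN, h1⟩ := H916Y.parity_main hp hm hpm hs hne (H _ hs.1 hr hs.2.1 hc)
    exact ⟨N, hN, hpN, h1 (N * m) rfl⟩

lemma theorem1 {p m L : ℕ} (hp : p.Prime) (hsq : Squarefree m) (hpm : p.Coprime m)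
    (hlarge : ∀ l : ℕ, l.Prime → l ∣ m → l ≠ 2 → 2 * effective m L + 1 < l)
    (hgood : ∀ k : ℕ, k ∣ m → Odd k → 1 < k → GoodLevel p k (effective m L)) :
    TateUpTo p m L := by
  have hm : 0 < m := Nat.pos_of_ne_zero hsq.ne_zero
  have hz : NeZero m := ⟨hm.ne'⟩
  refine tateUpTo_of_parity hp hm hpm fun s h0 hr hev hc a => ?_
  refine H547_tb.parity_cond hsq L ?_ hpm ?_ s h0 hr hev hc a
  · intro l hl hlm hl2
    have h1 := hlarge l hl hlm hl2
    rw [effective_eq] at h1
    rw [mul_assoc]
    exact h1
  · intro k hk hk2 hk1
    have hk0 : 0 < k := Nat.pos_of_dvd_of_pos hk hm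
    have h1 := hgood k hk (by rw [← Nat.not_even_iff_odd, even_iff_two_dvd]; exact hk2) (by omega)
    rw [effective_eq] at h1
    rcases h1 with h1 | h1 | ⟨h1, h2, h3, h4⟩
    · exact Or.inl h1
    · exact Or.inr (Or.inl h1)
    · exact Or.inr (Or.inr ⟨h1, h2, h3, by rw [← mul_assoc]; exact h4⟩)

lemma orderOf_dvd_of_dvd {p k m : ℕ} (hk : k ∣ m) :
    orderOf (p : ZMod k) ∣ orderOf (p : ZMod m) := by
  have h1 : (ZMod.castHom hk (ZMod k)) (p : ZMod m) = (p : ZMod k) := map_natCast _ _
  rw [← h1]
  exact orderOf_map_dvd (ZMod.castHom hk (ZMod k)).toMonoidHom (p : ZMod m)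

end proof

/-- **The Tate conjecture for the Tate classes with at most `L` residues on products of Fermat
varieties and on abelian varieties of Gauss sum type**, in particular for the Tate classes of
codimension `i` if `6 i ≤ L`, and for abelian varieties if `2 i ≤ L`. -/
theorem result :
    -- Theorem 0: the number of the residues is bounded by the codimension
    (∀ (p m i : ℕ) (ι : Type) [Fintype ι] (d n : ι → ℕ), (∀ j, 1 ≤ n j) →
      ∀ b ∈ tateBasis p m d n i, Multiset.card (residues b) ≤ 6 * i) ∧
    -- Theorem 1
    (∀ p m L : ℕ, p.Prime → Squarefree m → p.Coprime m →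
      (∀ l : ℕ, l.Prime → l ∣ m → l ≠ 2 → 2 * effective m L + 1 < l) →
      (∀ k : ℕ, k ∣ m → Odd k → 1 < k → GoodLevel p k (effective m L)) → TateUpTo p m L) ∧
    -- Theorem 2: odd order
    (∀ p m L : ℕ, p.Prime → Squarefree m → p.Coprime m → Odd (orderOf (p : ZMod m)) →
      (∀ l : ℕ, l.Prime → l ∣ m → l ≠ 2 → 2 * effective m L + 1 < l) →
      (∀ k : ℕ, k ∣ m → 1 < k → (∀ q ∈ k.primeFactors, q % 4 = 3) → Even k.primeFactors.card →
        effective m L * 2 ^ k.primeFactors.card * orderOf (p : ZMod k) < k.totient) →
      TateUpTo p m L) := by
  refine ⟨?_, ?_, ?_⟩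
  · intro p m i ι _ d n hn b hb
    exact card_le hn hb.2.1
  · intro p m L hp hsq hpm hlarge hgood
    exact theorem1 hp hsq hpm hlarge hgood
  · intro p m L hp hsq hpm hf hlarge hcond
    refine theorem1 hp hsq hpm hlarge fun k hk hk2 hk1 => ?_
    have hfk : Odd (orderOf (p : ZMod k)) := hf.of_dvd_nat (orderOf_dvd_of_dvd hk)
    have h1 := H547_tb.good_of_odd_order (B := effective m L) hk1 (hsq.squarefree_of_dvd hk)
      (by rw [← even_iff_two_dvd, Nat.not_even_iff_odd]; exact hk2)
      (Nat.Coprime.coprime_dvd_right hk hpm) hfk (fun h34 he => by
        rw [← mul_assoc]; exact hcond k hk hk1 h34 he)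
    rcases h1 with h1 | ⟨h1, h2, h3, h4⟩
    · exact Or.inr (Or.inl h1)
    · exact Or.inr (Or.inr ⟨h1, h2, h3, by rw [mul_assoc]; exact h4⟩)

end Pool.Agent.Results.MP_021685_ag.BoundedCodimension
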