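import Pool.Agent.Helper793_Tate.TMain

/-!
# The Tate conjecture for products of varieties whose Frobenius fields at one place are separated

Let `k` be a number field or a finite field (or any field), and let `v` be **one** place of `k` at
which all varieties below have good reduction, with a residue field with `p ^ a` elements (`v` is
not needed if `k` is finite). Let `g` be the geometric Frobenius element at `v`. Its eigenvalues on
the cohomology of a smooth projective variety are Weil numbers (Deligne); up to powers of `p` and
roots of unity they are real numbers or generate CM fields.

We consider finitely many CM fields `K r` and Weil numbers `π r` in `K r`, divided into blocks: `b r`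
is the block of `r`. A variety belongs to the block `i` if some powers of the eigenvalues of `g` on
its cohomology are products of powers of `p` and of conjugates of the `π r` with `b r = i`
(`EigenvaluesIn`). All products and powers of varieties of one block belong to this block; for an
abelian variety the eigenvalues in degree one suffice. We assume that the fields `K r`, `K s` of
different blocks are separated as in `MP_557161_ag.SeparatedFactors`: for instance

* one of them is an imaginary quadratic field which is not contained in the other one; or
* the degrees of their maximal real subfields are coprime and odd, and they contain no common
  imaginary quadratic field; or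
* the maximal real subfield of one of them is linearly disjoint from the Galois closure of the other
  one, and they contain no common imaginary quadratic field; or
* the degree of one of them is twice a prime number, it is not contained in the Galois closure of
  the other one, and they contain no common imaginary quadratic field; or
* any two embeddings of the two fields in the complex numbers are cross flipped.

**Theorem.** Let `Z` be any variety of the block `i₀`, and let `X_1, …, X_n` be varieties of pairwise
different blocks, different from `i₀`, for which `g` is generic. Then the Tate conjecture (in all
codimensions) for `X_1 × ⋯ × X_n × Z` holds if and only if it holds for `Z` and for all `X_r`.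

Here `g` is generic for `X` (`IsGeneric`) if it has on every subspace of the cohomology of `X` which is
stable under a subgroup of finite index of the Galois group, and which is not contained in the span
of the Tate classes, an eigenvalue no power of which is a power of `p`.  There is no such condition
on `Z`, and no condition on the Tate classes: they may be exotic, that is, not generated by divisors.

**Examples.** Let `X` and `Z` be two varieties over a number field or a finite field, with any exotic
Tate classes. Suppose that at one place the Frobenius eigenvalues of `X` and of `Z` are in the groups
generated by the conjugates of Weil numbers in CM fields `K_1, K_2, …` and `K'_1, K'_2, …` (and by roots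
of unity and powers of `p`), where the degrees of the maximal real subfields of the `K_r` are odd and
prime to the degrees of the ones of the `K'_s`, also odd, and `K_r` and `K'_s` contain no common
imaginary quadratic field. Then, if `g` is generic for `X`, the Tate conjecture for `X × Z` is
equivalent to the Tate conjectures for `X` and for `Z`.

If `k` is a finite field, then `g` is generic for `X` if it acts semisimply on the cohomology and if no
eigenvalue in an odd degree has a power which is a power of `p`. A power of an elliptic curve `E`
over a number field, with or without complex multiplication, is generic if the reduction of `E` is
ordinary; in this case, and more generally if `X` is a power of an abelian variety with maximal angle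
rank, the theorem is contained in the starting file `MP_2a05c8_ag.AllCMTypesTimesSmooth`. There the
multiplicative relations between the eigenvalues of `X` have to be the trivial ones, and here they are
arbitrary.

The new point, compared with `MP_938ce2_ag.AlmostAllFactors`, where the eigenvalues are assumed to be
multiplicatively independent, is that this independence follows from the separation of the fields.
`MP_557161_ag.SeparatedFactors` (Tate classes generated by divisors on abelian varieties over finite
fields) and `MP_557161_ag.KunnethPoles` (orders of poles of zeta functions) use the same lemma on
relations between Weil numbers in separated fields for other statements.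

## The formal statement

`W` is a Weil cohomology theory with algebraically closed coefficients (étale cohomology with
coefficients in the closure of `ℚ_ℓ`), `Γ` is a group (the Galois group), `χ` a character (the inverse
of the cyclotomic character), and a `GVar W Γ` is a variety with an action of `Γ` on its cohomology
algebra. `TateConjecture χ X` says that all Tate classes (elements of `H^(2j)(X)` which are multiplied
by `χ g ^ j` by all `g` in a subgroup of finite index) are linear combinations of classes of algebraic
cycles. `IsTower F Z l Y` says that `Y = X_1 × (X_2 × ( ⋯ × Z))`, where the list `l` consists of the
pairs of a block and a member `X_r` of this block.

## Proof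

A Tate class on `X × Y` is an equivariant map up to twist from the dual of the cohomology of `Y` to
the cohomology of `X`. An eigenvalue `x` of a power of `g` on its image is the inverse, up to a power
of `p`, of an eigenvalue on the cohomology of `Y`. Since multiplicative relations between
conjugates of Weil numbers in separated fields split (`relation_split`), some power of `x` is a power
of `p`. So the image is spanned by Tate classes.
-/

open CategoryTheory AlgebraicGeometry NumberField

universe u

namespace Pool.Agent.Results.MP_021685_ag.SeparatedFrobeniusFields

open Pool.Agent.H914 Pool.Agent.H914.VarClass Pool.Agent.H914.VarClass.Obj
  Pool.Agent.TH125.Gal Pool.Agent.H621.AF Pool.Agent.Helper793_Prime Pool.Agent.Helper793_Tate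

/-- **The Tate conjecture for products of varieties with separated Frobenius fields.** -/
theorem result {k : Type u} [Field k] {𝒱 : VarClass k} {ops : CycleOps 𝒱}
    {W : WeilCohomology.{u, 0} ops} [IsAlgClosed W.K] {Γ : Type} [Group Γ] (χ : Γ →* W.Kˣ)
    (p : ℕ) [Fact p.Prime] {I J : Type} [Fintype I] (K : I → Type) [∀ r, Field (K r)]
    [∀ r, NumberField (K r)] [∀ r, IsCMField (K r)] (m : I → ℕ) (π : ∀ r, K r)
    (hint : ∀ r, IsIntegral ℤ (π r))
    (hweil : ∀ r, ∀ φ : K r →+* ℂ, ‖φ (π r)‖ ^ 2 = (p : ℝ) ^ m r)
    (b : I → J) (hsep : ∀ r s, b r ≠ b s → Separated (K r) (K s))
    (g : Γ) (a : ℕ) (ha : 0 < a) (hg : (χ g : W.K) = (p : W.K) ^ a)
    (i₀ : J) (Z : GVar W Γ) (hZ : EigenvaluesIn p π {r | b r = i₀} g Z)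
    (l : List (J × GVar W Γ)) (Y : GVar W Γ) (hY : IsTower (blockOf χ p π b g) Z l Y)
    (hl : ∀ q ∈ l, q.1 ≠ i₀) :
    TateConjecture χ Y ↔ TateConjecture χ Z ∧ ∀ q ∈ l, TateConjecture χ q.2 :=
  tate_separated p ha m π hint (fun r φ => by rw [hweil r φ]; push_cast; rfl) b hsep hg i₀ hZ
    hY hl

end Pool.Agent.Results.MP_021685_ag.SeparatedFrobeniusFields
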